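import Pool.Agent.Lib.MP_997161_gt.Global

open Filter Topology
open scoped RealInnerProductSpace

namespace Pool.Agent.Results.MP_997161_gt.SphereOnly

variable {E : Type} [NormedAddCommGroup E] [InnerProductSpace ℝ E]

/-- The Hessian of `g` at `q`, evaluated on `v` and `w`. -/
noncomputable def hess (g : E → ℝ) (q v w : E) : ℝ := iteratedFDeriv ℝ 2 g q ![v, w]

/-- A compact connected embedded surface of class `C^3` (in particular any smooth one) with
positive Gaussian curvature: near each of its points it is a regular level set of a function `g`,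
and the Hessian of `g` has positive determinant on the tangent plane. -/
def IsOvaloid (S : Set E) : Prop :=
  IsCompact S ∧ IsConnected S ∧ ∀ q ∈ S, ∃ g : E → ℝ,
    ContDiffAt ℝ 3 g q ∧ fderiv ℝ g q ≠ 0 ∧ (∀ᶠ x in 𝓝 q, x ∈ S ↔ g x = 0) ∧
    ∀ v w, fderiv ℝ g q v = 0 → fderiv ℝ g q w = 0 → LinearIndependent ℝ ![v, w] →
      hess g q v w ^ 2 < hess g q v v * hess g q w w

/-- The feet of the normals from `p` to `S`. -/
def feet (S : Set E) (p : E) : Set E := {q ∈ S | ∀ v ∈ tangentConeAt ℝ S q, ⟪p - q, v⟫ = 0}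

theorem result (S : Set (EuclideanSpace ℝ (Fin 3))) (hS : IsOvaloid S)
    (h : ∀ p p', 6 ≤ (feet S p).encard → 6 ≤ (feet S p').encard → p = p') :
    ∃ (c : EuclideanSpace ℝ (Fin 3)) (r : ℝ), 0 < r ∧ S = Metric.sphere c r :=
  Pool.Agent.Lib.MP_997161_gt.main hS.1 hS.2.1
    (fun q hq => let ⟨_, h1, h2, h3, h4⟩ := hS.2.2 q hq
      Pool.Agent.Lib.MP_997161_gt.exists_def h1 h2 h3 fun v w k1 k2 k3 => by
        simpa [hess, iteratedFDeriv_two_apply] using h4 v w k1 k2 k3)
    fun p hp p' hp' => h p p' hp hp'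

end Pool.Agent.Results.MP_997161_gt.SphereOnly
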